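import Pool.Agent.W128.VA.Stm2

/-!
# Project VA: VA-SEQ, the string of extremal vectors
-/

set_option autoImplicit false

namespace Pool.Agent.W361.VA.Seq

open Pool.Agent.W128.VA

section

variable {M : Type*} [AddCommGroup M] [Module ℂ M]

/-- the positive side of the string -/
def pos (e : ℤ → Module.End ℂ M) (j : ℤ) (w : M) : ℕ → M
  | 0 => w
  | k + 1 => e (-(j + 2 * (k : ℤ)) - 1) (pos e j w k)

/-- the negative side of the string -/
def neg (f : ℤ → Module.End ℂ M) (j : ℤ) (w : M) : ℕ → M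
  | 0 => w
  | k + 1 => f (j - 2 * (k : ℤ) - 1) (neg f j w k)

/-- the string -/
def str (e f : ℤ → Module.End ℂ M) (j : ℤ) (w : M) (k : ℤ) : M :=
  if 0 ≤ k then pos e j w k.toNat else neg f j w (-k).toNat

theorem str_nat (e f : ℤ → Module.End ℂ M) (j : ℤ) (w : M) (k : ℕ) :
    str e f j w (k : ℤ) = pos e j w k := by
  simp [str]

theorem str_neg (e f : ℤ → Module.End ℂ M) (j : ℤ) (w : M) (k : ℕ) :
    str e f j w (-(k : ℤ)) = neg f j w k := by
  unfold str
  by_cases hk : k = 0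
  · subst hk
    simp [pos, neg]
  · rw [if_neg (by omega)]
    simp

end

theorem main.{u} : S_STR.{u} → S_SEQ.{u} := by
  intro hS M _ _ gr h e f hR j d w hw hd
  have hp : ∀ k : ℕ, pos e j w k ∈ Om h (j + 2 * (k : ℤ)) ∧ ∃ c : ℤ, pos e j w k ∈ gr c := by
    intro k
    induction k with
    | zero => exact ⟨by simpa [pos] using hw, d, by simpa [pos] using hd⟩
    | succ k ih =>
      obtain ⟨h1, c, h2⟩ := ih
      have h3 := (hS M gr h e f hR _ _ h1).2.2.1
      refine ⟨?_, c - (-(j + 2 * (k : ℤ)) - 1) - 1, ?_⟩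
      · have : j + 2 * ((k + 1 : ℕ) : ℤ) = j + 2 * (k : ℤ) + 2 := by push_cast; ring
        rw [this]
        exact h3
      · exact hR.de _ _ _ h2
  have hn : ∀ k : ℕ, neg f j w k ∈ Om h (j - 2 * (k : ℤ)) ∧ ∃ c : ℤ, neg f j w k ∈ gr c := by
    intro k
    induction k with
    | zero => exact ⟨by simpa [neg] using hw, d, by simpa [neg] using hd⟩
    | succ k ih =>
      obtain ⟨h1, c, h2⟩ := ih
      have h3 := (hS M gr h e f hR _ _ h1).2.2.2.2.1
      refine ⟨?_, c + 1 - (j - 2 * (k : ℤ) - 1), ?_⟩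
      · have : j - 2 * ((k + 1 : ℕ) : ℤ) = j - 2 * (k : ℤ) - 2 := by push_cast; ring
        rw [this]
        exact h3
      · exact hR.df _ _ _ h2
  refine ⟨str e f j w, by simp [str, pos], fun k => ?_⟩
  rcases Int.eq_nat_or_neg k with ⟨n, rfl | rfl⟩
  · -- nonnegative index
    rw [str_nat]
    refine ⟨(hp n).1, (hp n).2, ?_, ?_⟩
    · have : (n : ℤ) + 1 = ((n + 1 : ℕ) : ℤ) := by push_cast; ring
      rw [this, str_nat]
      rfl
    · rcases n with _ | n
      · have : ((0 : ℕ) : ℤ) - 1 = -((1 : ℕ) : ℤ) := by simp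
        rw [this, str_neg]
        simp [neg, pos]
      · have : ((n + 1 : ℕ) : ℤ) - 1 = (n : ℤ) := by push_cast; ring
        rw [this, str_nat]
        have h4 := (hS M gr h e f hR _ _ (hp n).1).2.2.2.1
        have e1 : j + 2 * ((n + 1 : ℕ) : ℤ) - 1 = j + 2 * (n : ℤ) + 1 := by push_cast; ring
        rw [e1]
        exact h4.symm
  · -- nonpositive index
    rw [str_neg]
    have e0 : j + 2 * (-(n : ℤ)) = j - 2 * (n : ℤ) := by ring
    refine ⟨by rw [e0]; exact (hn n).1, (hn n).2, ?_, ?_⟩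
    · rcases n with _ | n
      · have : -((0 : ℕ) : ℤ) + 1 = ((1 : ℕ) : ℤ) := by simp
        rw [this, str_nat]
        simp [neg, pos]
      · have : -((n + 1 : ℕ) : ℤ) + 1 = -(n : ℤ) := by push_cast; ring
        rw [this, str_neg]
        have h4 := (hS M gr h e f hR _ _ (hn n).1).2.2.2.2.2
        have e1 : -(j + 2 * -((n + 1 : ℕ) : ℤ)) - 1 = 1 - (j - 2 * (n : ℤ)) := by
          push_cast; ring
        rw [e1]
        exact h4.symm
    · have : -(n : ℤ) - 1 = -((n + 1 : ℕ) : ℤ) := by push_cast; ring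
      rw [this, str_neg, e0]
      rfl

end Pool.Agent.W361.VA.Seq
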